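import Mathlib
import Pool.Agent.X200.OneEmb

/-!
MP_493890_gt, Q1: there is a Tychonoff space that is not normal (so not perfectly normal) in which
every subset is 1-embedded; in fact every subset is functionally `F_sigma` and functionally
`G_delta`.
-/

namespace Pool.Agent.Results.MP_493890_gt.AllOneEmbedded

open Set Pool.Agent.X200.OneEmb

theorem result : ∃ (X : Type) (_ : TopologicalSpace X), T35Space X ∧ ¬ NormalSpace X ∧
    (∀ E : Set X, OneEmbedded E) ∧ ∀ A : Set X, FSigma A ∧ GDelta A := by
  have hu : Uncountable ℝ := inferInstance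
  have : CompletelyRegularSpace (Sp ℝ) := cr
  refine ⟨Sp ℝ, inferInstance, ⟨⟩, not_normal, ?_, fun A => ⟨fSigma_all A, (fSigma_all Aᶜ).gDelta_compl⟩⟩
  intro E
  refine ⟨fun A _ => ⟨Subtype.val '' A, fSigma_all _, ?_⟩,
    fun A _ => ⟨Subtype.val '' A, (fSigma_all _).gDelta_compl, ?_⟩⟩
  · rw [preimage_image_eq _ Subtype.val_injective]
  · rw [preimage_image_eq _ Subtype.val_injective]

end Pool.Agent.Results.MP_493890_gt.AllOneEmbedded
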